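import Pool.Graph.R_seed8.W190.A17

/-!
# The mean of the logarithm of the least common multiple of a subset of `{1, …, n}`

`E n = ∑_{m ≤ n} Λ(m) (1 - 2 ^ (-⌊n / m⌋))`, its Dirichlet series, and its size on all windows.
-/

set_option autoImplicit false

open Complex Filter Topology Set Metric MeasureTheory
open H353 (FF mu mu_cast mu_pos FF_anal FF_order_ne_top zeros_finite FF_bound)
open Pool.Agent.W190

namespace Pool.Agent.Helper54.Lcm

noncomputable section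

/-- `2 ^ (-n)` for `n ≥ 1` -/
def cR : ArithmeticFunction ℝ := ⟨fun n => if n = 0 then 0 else (1 / 2) ^ n, by simp⟩

lemma cR_apply {n : ℕ} (h : n ≠ 0) : cR n = (1 / 2) ^ n := by
  change (if n = 0 then (0:ℝ) else (1 / 2) ^ n) = _
  rw [if_neg h]

lemma cR_nonneg (n : ℕ) : 0 ≤ cR n := by
  by_cases h : n = 0
  · subst h; simp
  · rw [cR_apply h]; positivity

lemma cR_le (n : ℕ) : cR n ≤ (1 / 2) ^ n := by
  by_cases h : n = 0
  · subst h; simp
  · rw [cR_apply h]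

def bR : ArithmeticFunction ℝ := ArithmeticFunction.vonMangoldt * cR

def E (N : ℕ) : ℝ := ∑ m ∈ Finset.Ioc 0 N, ArithmeticFunction.vonMangoldt m * (1 - (1 / 2) ^ (N / m))

lemma sum_cR (N : ℕ) : ∑ n ∈ Finset.Ioc 0 N, cR n = 1 - (1 / 2) ^ N := by
  induction N with
  | zero => simp
  | succ N ih =>
    rw [Finset.sum_Ioc_succ_top (by omega), ih, cR_apply (by omega)]
    ring

lemma SF_bR (y : ℝ) : SF (fun n => bR n) y = E ⌊y⌋₊ := by
  unfold SF E
  rw [show Finset.Icc 1 ⌊y⌋₊ = Finset.Ioc 0 ⌊y⌋₊ from rfl]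
  unfold bR
  rw [ArithmeticFunction.sum_Ioc_mul_eq_sum_sum]
  exact Finset.sum_congr rfl fun m _ => by rw [sum_cR]

/-! ## the Dirichlet series of `cR` -/

def cC (n : ℕ) : ℂ := ((cR n : ℝ) : ℂ)

lemma term_norm (s : ℂ) {n : ℕ} (hn : n ≠ 0) :
    ‖LSeries.term cC s n‖ = (1 / 2) ^ n * (n : ℝ) ^ (-s.re) := by
  rw [LSeries.norm_term_eq, if_neg hn]
  unfold cC
  rw [Complex.norm_real, cR_apply hn, Real.norm_eq_abs, abs_of_nonneg (by positivity),
    Real.rpow_neg (Nat.cast_nonneg n)]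
  rfl

lemma cC_summable (s : ℂ) : LSeriesSummable cC s := by
  unfold LSeriesSummable
  obtain ⟨k, hk⟩ := exists_nat_ge (-s.re)
  have h := summable_pow_mul_geometric_of_norm_lt_one (R := ℝ) k (r := 1 / 2) (by norm_num)
  refine Summable.of_norm_bounded h fun n => ?_
  by_cases hn : n = 0
  · subst hn
    simp only [LSeries.term_zero, norm_zero]
    positivity
  · rw [term_norm s hn, mul_comm]
    have h1 : (1:ℝ) ≤ n := by exact_mod_cast Nat.one_le_iff_ne_zero.2 hn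
    have h2 : (n : ℝ) ^ (-s.re) ≤ (n : ℝ) ^ k := by
      rw [← Real.rpow_natCast]
      exact Real.rpow_le_rpow_of_exponent_le h1 hk
    gcongr

lemma cC_diff : Differentiable ℂ (LSeries cC) := by
  intro s
  have h := LSeries_differentiableOn cC
  have hlt : LSeries.abscissaOfAbsConv cC < s.re := by
    have h1 := (cC_summable (s - 1)).abscissaOfAbsConv_le
    refine h1.trans_lt ?_
    exact_mod_cast (by simp : (s - 1).re < s.re)
  exact (h s hlt).differentiableAt ((isOpen_lt continuous_const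
    (continuous_coe_real_ereal.comp Complex.continuous_re)).mem_nhds hlt)

lemma half_sum : Summable fun n : ℕ => (1 / 2 : ℝ) ^ n := summable_geometric_two

lemma cC_norm_le {s : ℂ} (hs : 0 ≤ s.re) : ‖LSeries cC s‖ ≤ 2 := by
  unfold LSeries
  have h1 : ∀ n, ‖LSeries.term cC s n‖ ≤ (1 / 2 : ℝ) ^ n := by
    intro n
    by_cases hn : n = 0
    · subst hn; simp
    · rw [term_norm s hn]
      have h1 : (1:ℝ) ≤ n := by exact_mod_cast Nat.one_le_iff_ne_zero.2 hn
      have h2 : (n : ℝ) ^ (-s.re) ≤ 1 := Real.rpow_le_one_of_one_le_of_nonpos h1 (by linarith)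
      have h3 : (0:ℝ) ≤ (1 / 2) ^ n := by positivity
      nlinarith
  have h2 := tsum_of_norm_bounded half_sum.hasSum h1
  rwa [tsum_geometric_two] at h2

lemma cC_ne {s : ℂ} (hs : 1 / 2 ≤ s.re) : LSeries cC s ≠ 0 := by
  have hsum := cC_summable s
  have h0 : LSeries cC s = 1 / 2 + ∑' n : ℕ, LSeries.term cC s (n + 2) := by
    unfold LSeries
    rw [← hsum.sum_add_tsum_nat_add 2]
    congr 1
    rw [Finset.sum_range_succ, Finset.sum_range_one, LSeries.term_zero,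
      LSeries.term_of_ne_zero one_ne_zero]
    unfold cC
    rw [cR_apply one_ne_zero]
    simp
  have h1 : ∀ n : ℕ, ‖LSeries.term cC s (n + 2)‖ ≤ 1 / 4 * (3 / 4) * (1 / 2 : ℝ) ^ n := by
    intro n
    rw [term_norm s (by omega)]
    have h2 : (2:ℝ) ≤ ((n + 2 : ℕ) : ℝ) := by push_cast; linarith [(Nat.cast_nonneg n : (0:ℝ) ≤ n)]
    have h3 : ((n + 2 : ℕ) : ℝ) ^ (-s.re) ≤ 3 / 4 := by
      calc ((n + 2 : ℕ) : ℝ) ^ (-s.re) ≤ ((n + 2 : ℕ) : ℝ) ^ (-(1 / 2) : ℝ) :=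
            Real.rpow_le_rpow_of_exponent_le (by linarith) (by linarith)
        _ ≤ (2 : ℝ) ^ (-(1 / 2) : ℝ) := Real.rpow_le_rpow_of_nonpos (by norm_num) h2 (by norm_num)
        _ ≤ 3 / 4 := by
          rw [Real.rpow_neg (by norm_num), ← Real.sqrt_eq_rpow]
          have : (4 / 3 : ℝ) ≤ Real.sqrt 2 := by
            apply Real.le_sqrt_of_sq_le
            norm_num
          calc (Real.sqrt 2)⁻¹ ≤ (4 / 3 : ℝ)⁻¹ := inv_anti₀ (by norm_num) this
            _ = 3 / 4 := by norm_num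
    have h4 : (0:ℝ) ≤ (1 / 2) ^ n := by positivity
    rw [pow_add]
    nlinarith
  have h2 : ‖∑' n : ℕ, LSeries.term cC s (n + 2)‖ ≤ 1 / 4 * (3 / 4) * 2 := by
    refine tsum_of_norm_bounded ?_ h1
    have := half_sum.hasSum
    rw [tsum_geometric_two] at this
    exact this.mul_left _
  intro h
  rw [h0] at h
  have h3 : ∑' n : ℕ, LSeries.term cC s (n + 2) = -(1 / 2) := by linear_combination h
  rw [h3] at h2
  norm_num at h2

/-! ## the Dirichlet series of `bR` -/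

lemma bC_eq (n : ℕ) : ((bR n : ℝ) : ℂ) =
    (LSeries.convolution (fun n => ((ArithmeticFunction.vonMangoldt n : ℝ) : ℂ)) cC) n := by
  rw [LSeries.convolution_def]
  unfold bR cC
  rw [ArithmeticFunction.mul_apply]
  push_cast
  rfl

lemma bC_LSeries {s : ℂ} (hs : 1 < s.re) :
    LSeries (fun n => ((bR n : ℝ) : ℂ)) s =
      LSeries (fun n => ((ArithmeticFunction.vonMangoldt n : ℝ) : ℂ)) s * LSeries cC s := by
  rw [← LSeries_convolution' (ArithmeticFunction.LSeriesSummable_vonMangoldt hs) (cC_summable s)]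
  exact LSeries_congr (fun {n} _ => bC_eq n) s

lemma bC_summable {s : ℂ} (hs : 1 < s.re) : LSeriesSummable (fun n => ((bR n : ℝ) : ℂ)) s := by
  have h := LSeriesSummable.convolution (ArithmeticFunction.LSeriesSummable_vonMangoldt hs) (cC_summable s)
  refine (LSeriesSummable_congr s fun {n} _ => ?_).2 h
  exact bC_eq n

theorem bR_sum : Summable fun n : ℕ => ‖((bR n : ℝ) : ℂ)‖ / (n : ℝ) ^ 2 := by
  have h := (bC_summable (s := 2) (by norm_num)).norm
  refine h.congr fun n => ?_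
  by_cases hn : n = 0
  · subst hn
    simp
  · rw [LSeries.norm_term_eq, if_neg hn]
    have : ((2:ℂ)).re = 2 := by norm_num
    rw [this]
    congr 1
    exact_mod_cast Real.rpow_natCast (n : ℝ) 2

/-! ## lower bounds on all windows -/

theorem b_u {σ θ κ c α δ : ℝ} (hσ : 1 / 2 ≤ σ) (hθ : σ < θ) (hκ : 0 ≤ κ) (hc : 0 < c) (hα : 0 ≤ α)
    (hακ : (κ + 1) * α < 1) (hdens : Dens σ α) (ρ₀ : ℂ) (hρ0 : FF ρ₀ = 0) (hρθ : θ < ρ₀.re) (D : ℝ → ℕ)
    (hδ1 : δ < 1) (hDu : ∀ᶠ u in atTop, (D u : ℝ) ≤ u ^ δ)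
    (ε : ℝ) (hε : 0 < ε) :
    ∀ᶠ u in atTop, ∀ cf : ℕ → ℂ, Real.exp ((ρ₀.re - ε) * u) ≤
      ∫ v in u..(u + et c κ u),
        ‖TT (fun n => ((bR n : ℝ) : ℂ)) v - PE (D u + 1) cf v‖ := by
  classical
  obtain ⟨F1, hF1, hF10, hF⟩ := exists_F1 ρ₀
  have hρ1 : ρ₀.re < 1 := ZU.J_g2b.FF_zero_re hρ0
  have hmu := mu_pos ρ₀ hρ0
  have hρne : ρ₀ - 1 ≠ 0 := by
    intro h
    have := congrArg Complex.re h
    simp at this
    linarith
  set m := mu ρ₀ with hm
  set B1 : ℂ → ℂ := fun z => LSeries cC z *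
    ((z - ρ₀) * F1 z - (z - 1) * (m * F1 z + (z - ρ₀) * deriv F1 z)) with hB1
  have hB1a : AnalyticAt ℂ B1 ρ₀ := by
    have h1 := hF1.deriv
    have h2 : AnalyticAt ℂ (LSeries cC) ρ₀ := cC_diff.analyticAt ρ₀
    rw [hB1]
    fun_prop
  have hB10 : B1 ρ₀ ≠ 0 := by
    rw [hB1]
    simp only [sub_self, zero_mul, add_zero, zero_sub, ne_eq, neg_eq_zero, mul_eq_zero, not_or]
    refine ⟨cC_ne (by linarith), hρne, ?_, hF10⟩
    exact_mod_cast (by omega : m ≠ 0)
  have hFd : Differentiable ℂ FF := ZU.J_g2b.FF_diff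
  have hBB : ∀ᶠ z in 𝓝 ρ₀, LSeries cC z * (FF z - (z - 1) * deriv FF z) = (z - ρ₀) ^ (m - 1) • B1 z := by
    have h1 : deriv FF =ᶠ[𝓝 ρ₀] deriv (fun z => (z - ρ₀) ^ m • F1 z) :=
      EventuallyEq.deriv hF
    filter_upwards [h1, hF, hF1.eventually_analyticAt] with z z1 z2 z3
    have h2 : HasDerivAt (fun z => (z - ρ₀) ^ m • F1 z)
        ((m : ℂ) * (z - ρ₀) ^ (m - 1) * 1 * F1 z + (z - ρ₀) ^ m * deriv F1 z) z :=
      (((hasDerivAt_id z).sub_const ρ₀).pow m).mul z3.differentiableAt.hasDerivAt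
    rw [z1, h2.deriv, z2]
    have h3 : (z - ρ₀) ^ m = (z - ρ₀) ^ (m - 1) * (z - ρ₀) := by
      rw [← pow_succ]
      congr 1
      omega
    rw [h3, hB1]
    simp only [smul_eq_mul]
    ring
  have hBd : Differentiable ℂ (fun s => LSeries cC s * (FF s - (s - 1) * deriv FF s)) := by
    have h1 : Differentiable ℂ (deriv FF) := hFd.deriv
    have h2 := cC_diff
    fun_prop
  refine main_u (a := fun n => ((bR n : ℝ) : ℂ)) (by simp) bR_sum hσ hθ
    hκ hc hα hακ hdens ρ₀ hρ0 hρθ (fun ρ => if ρ = ρ₀ then 0 else mu ρ) D hδ1 hDu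
    (fun s => LSeries cC s * (FF s - (s - 1) * deriv FF s)) hBd (m - 1) ?_ ?_ ?_ F1 B1 hF1 hB1a hF10
    hB10 hF hBB ?_ 126 (by norm_num) 3 ?_ ε hε
  · simp only [if_true]
    omega
  · intro ρ hρ
    simp only [if_neg hρ]
  · rw [natCast_le_analyticOrderAt (hBd.analyticAt ρ₀)]
    exact ⟨B1, hB1a, hBB⟩
  · intro s hs
    have h1 : 1 < s.re := by rw [hs]; norm_num
    have hs1 : s ≠ 1 := by
      rintro rfl
      norm_num at hs
    rw [bC_LSeries h1]
    have h2 := ArithmeticFunction.LSeries_vonMangoldt_eq_deriv_riemannZeta_div h1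
    rw [h2]
    have hz : riemannZeta s ≠ 0 := riemannZeta_ne_zero_of_one_lt_re h1
    have h3 : deriv FF s = riemannZeta s + (s - 1) * deriv riemannZeta s := by
      have h4 : FF =ᶠ[𝓝 s] fun z => (z - 1) * riemannZeta z := by
        filter_upwards [isOpen_ne.mem_nhds hs1] with z hz
        exact FF_eq_ne hz
      rw [h4.deriv_eq]
      have h5 := ((hasDerivAt_id s).sub_const 1).mul (differentiableAt_riemannZeta hs1).hasDerivAt
      have h6 : HasDerivAt (fun z => (z - 1) * riemannZeta z)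
        (1 * riemannZeta s + (s - 1) * deriv riemannZeta s) s := h5
      rw [h6.deriv, one_mul]
    rw [h3, FF_eq_ne hs1]
    field_simp
    ring
  · intro z z1 z2
    have hz : ‖z‖ ≤ 2 + |z.im| := by
      have := Complex.norm_le_abs_re_add_abs_im z
      rw [abs_of_nonneg (by linarith)] at this
      linarith
    have hz1 : ‖z - 1‖ ≤ 1 + |z.im| := by
      have := Complex.norm_le_abs_re_add_abs_im (z - 1)
      rw [Complex.sub_re, Complex.sub_im, Complex.one_re, Complex.one_im, sub_zero] at this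
      have h3 : |z.re - 1| ≤ 1 := abs_le.2 ⟨by linarith, by linarith⟩
      linarith
    have h4 := FF_bound (1 / 2) (by norm_num) z z1
    have h5 := deriv_FF_bound z z1
    have hi := abs_nonneg z.im
    set t := |z.im| with ht
    have h6 : ‖FF z‖ ≤ 3 * (3 + t) ^ 2 := by
      refine h4.trans ?_
      have : (1 + ‖z‖) ^ 2 ≤ (3 + t) ^ 2 := pow_le_pow_left₀ (by positivity) (by linarith) 2
      norm_num
      linarith
    have h7 : ‖deriv FF z‖ ≤ 20 * (4 + t) ^ 2 := by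
      refine h5.trans ?_
      have : (2 + ‖z‖) ^ 2 ≤ (4 + t) ^ 2 := pow_le_pow_left₀ (by positivity) (by linarith) 2
      linarith
    have h9 : ‖FF z - (z - 1) * deriv FF z‖ ≤ 63 * (3 + t) ^ 3 := by
      refine (norm_sub_le _ _).trans ?_
      rw [norm_mul]
      have h8 : ‖z - 1‖ * ‖deriv FF z‖ ≤ (1 + t) * (20 * (4 + t) ^ 2) :=
        mul_le_mul hz1 h7 (norm_nonneg _) (by positivity)
      nlinarith [pow_nonneg hi 2, pow_nonneg hi 3]
    rw [norm_mul]
    have h10 := cC_norm_le (s := z) (by linarith)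
    calc ‖LSeries cC z‖ * ‖FF z - (z - 1) * deriv FF z‖ ≤ 2 * (63 * (3 + t) ^ 3) :=
          mul_le_mul h10 h9 (norm_nonneg _) (by norm_num)
      _ = 126 * (3 + t) ^ 3 := by ring

/-- the mean `E` on every window, if there is a zero with real part larger than `θ` -/
theorem E_window {κ θ c δ : ℝ} (hκ : 0 ≤ κ) (hc : 0 < c) (hδ : δ < 1) (hθ : 1 / 2 ≤ θ)
    (hcond : 4 * θ * (1 - θ) * (κ + 1) ≤ 1) (hz : ∃ s : ℂ, riemannZeta s = 0 ∧ θ < s.re) :
    ∀ᶠ x : ℝ in atTop, ∀ P : Polynomial ℝ, (P.natDegree : ℝ) ≤ Real.log x ^ δ →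
      x ^ (1 + θ) < ∫ y in x..(x + c * x / Real.log x ^ κ), |E ⌊y⌋₊ - P.eval y| := by
  obtain ⟨ρ, hρ0, hρθ⟩ := hz
  obtain ⟨hF, hρ1⟩ := zero_FF hρ0
  obtain ⟨σ, α, h1, h2, h3, h4, h5⟩ := params hκ hθ hcond hρθ hρ1
  have h6 : ∀ y : ℝ, E ⌊y⌋₊ = SF (fun n => bR n) y := fun y => (SF_bR y).symm
  simp only [h6]
  refine upgrade (β := ρ.re - (ρ.re - θ) / 2) (by linarith) ?_
  refine to_x (fun n => bR n) hκ hc (fun u => ⌊u ^ δ⌋₊) ?_
  exact b_u (θ := (σ + ρ.re) / 2) (by linarith) (by linarith) hκ hc h3 h4 h5 ρ hF (by linarith)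
    (fun u => ⌊u ^ δ⌋₊) hδ (floor_ok δ) ((ρ.re - θ) / 2) (by linarith)

end

end Pool.Agent.Helper54.Lcm
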