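import Pool.Agent.Helper54.Lcm.A

/-!
# The mean `E N` under a zero-free half-plane
-/

set_option autoImplicit false

open Filter Topology

namespace Pool.Agent.Helper54.Lcm

lemma E_eq (N : ℕ) : E N = ∑ k ∈ Finset.Ioc 0 N, (1 / 2) ^ k * Chebyshev.psi ((N : ℝ) / k) := by
  have h1 : E N = ∑ n ∈ Finset.Ioc 0 N, (cR * ArithmeticFunction.vonMangoldt) n := by
    have h := SF_bR N
    rw [Nat.floor_natCast] at h
    rw [← h]
    unfold Pool.Agent.W190.SF bR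
    rw [Nat.floor_natCast, mul_comm]
    rfl
  rw [h1, ArithmeticFunction.sum_Ioc_mul_eq_sum_sum]
  refine Finset.sum_congr rfl fun k hk => ?_
  rw [cR_apply (by have := (Finset.mem_Ioc.1 hk).1; omega)]
  congr 1
  unfold Chebyshev.psi
  rw [Nat.floor_div_natCast, Nat.floor_natCast]

lemma log_two_sum : HasSum (fun k : ℕ => (1 / 2 : ℝ) ^ (k + 1) / (k + 1)) (Real.log 2) := by
  have h := Real.hasSum_pow_div_log_of_abs_lt_one (x := 1 / 2) (by norm_num [abs_of_pos])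
  have e : -Real.log (1 - 1 / 2) = Real.log 2 := by
    rw [show (1 - 1 / 2 : ℝ) = (2 : ℝ)⁻¹ by norm_num, Real.log_inv, neg_neg]
  rwa [e] at h

lemma sum_shift (N : ℕ) : ∑ k ∈ Finset.Ioc 0 N, (1 / 2 : ℝ) ^ k / k =
    ∑ k ∈ Finset.range N, (1 / 2 : ℝ) ^ (k + 1) / (k + 1) := by
  induction N with
  | zero => simp
  | succ N ih => rw [Finset.sum_Ioc_succ_top (by omega), ih, Finset.sum_range_succ]; push_cast; rfl

lemma log_two_tail (N : ℕ) : |∑ k ∈ Finset.Ioc 0 N, (1 / 2 : ℝ) ^ k / k - Real.log 2| ≤ (1 / 2) ^ N := by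
  rw [sum_shift]
  have h := log_two_sum
  have h2 := h.summable.sum_add_tsum_nat_add N
  rw [h.tsum_eq] at h2
  have h3 : ∑ k ∈ Finset.range N, (1 / 2 : ℝ) ^ (k + 1) / (k + 1) - Real.log 2 =
      -∑' k : ℕ, (1 / 2 : ℝ) ^ (k + N + 1) / (((k + N : ℕ) : ℝ) + 1) := by
    rw [← h2]
    ring
  rw [h3, abs_neg]
  have h4 : HasSum (fun k : ℕ => (1 / 2 : ℝ) ^ (N + 1) * (1 / 2) ^ k) ((1 / 2) ^ (N + 1) * 2) :=
    hasSum_geometric_two.mul_left _
  have h5 := tsum_of_norm_bounded h4 (f := fun k : ℕ => (1 / 2 : ℝ) ^ (k + N + 1) / (((k + N : ℕ) : ℝ) + 1)) (by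
    intro k
    rw [Real.norm_eq_abs, abs_of_nonneg (by positivity)]
    refine (div_le_self (by positivity) ?_).trans (le_of_eq ?_)
    · have : (0 : ℝ) ≤ ((k + N : ℕ) : ℝ) := Nat.cast_nonneg _
      linarith
    · rw [← pow_add]
      congr 1
      omega)
  rw [Real.norm_eq_abs] at h5
  refine h5.trans (le_of_eq ?_)
  rw [pow_succ]
  ring

/-- the size of `E N` if `ψ(y) = y + O(y ^ β)` -/
theorem E_bound {β C : ℝ} (hβ : 0 ≤ β) (hC : 0 ≤ C)
    (h : ∀ y : ℝ, 1 ≤ y → |Chebyshev.psi y - y| ≤ C * y ^ β) (N : ℕ) :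
    |E N - N * Real.log 2| ≤ C * (N : ℝ) ^ β + 1 := by
  have hN0 : (0 : ℝ) ≤ N := Nat.cast_nonneg N
  have h1 : E N - N * Real.log 2 = ∑ k ∈ Finset.Ioc 0 N, (1 / 2) ^ k * (Chebyshev.psi ((N : ℝ) / k) - (N : ℝ) / k) +
      N * (∑ k ∈ Finset.Ioc 0 N, (1 / 2 : ℝ) ^ k / k - Real.log 2) := by
    rw [E_eq, mul_sub, Finset.mul_sum, add_sub, ← Finset.sum_add_distrib]
    congr 1
    refine Finset.sum_congr rfl fun k _ => ?_
    ring
  rw [h1]
  refine (abs_add_le _ _).trans (add_le_add ?_ ?_)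
  · refine (Finset.abs_sum_le_sum_abs _ _).trans ?_
    have h2 : ∀ k ∈ Finset.Ioc 0 N, |(1 / 2 : ℝ) ^ k * (Chebyshev.psi ((N : ℝ) / k) - (N : ℝ) / k)| ≤
        (1 / 2) ^ k * (C * (N : ℝ) ^ β) := by
      intro k hk
      rw [Finset.mem_Ioc] at hk
      have hk1 : (1 : ℝ) ≤ k := by exact_mod_cast hk.1
      have hkN : (k : ℝ) ≤ N := by exact_mod_cast hk.2
      rw [abs_mul, abs_of_nonneg (by positivity : (0 : ℝ) ≤ (1 / 2) ^ k)]
      have h3 : |Chebyshev.psi ((N : ℝ) / k) - (N : ℝ) / k| ≤ C * (N : ℝ) ^ β := by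
        refine (h _ ?_).trans ?_
        · rw [le_div_iff₀ (by linarith)]
          linarith
        · have h4 : ((N : ℝ) / k) ^ β ≤ (N : ℝ) ^ β :=
            Real.rpow_le_rpow (by positivity) (div_le_self hN0 hk1) hβ
          exact mul_le_mul_of_nonneg_left h4 hC
      exact mul_le_mul_of_nonneg_left h3 (by positivity)
    refine (Finset.sum_le_sum h2).trans ?_
    rw [← Finset.sum_mul]
    have h5 : ∑ k ∈ Finset.Ioc 0 N, (1 / 2 : ℝ) ^ k ≤ 1 := by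
      have h6 := sum_cR N
      have h7 : ∑ k ∈ Finset.Ioc 0 N, (1 / 2 : ℝ) ^ k = ∑ k ∈ Finset.Ioc 0 N, cR k :=
        Finset.sum_congr rfl fun k hk => by
          rw [cR_apply (by have := (Finset.mem_Ioc.1 hk).1; omega)]
      rw [h7, h6]
      have : (0 : ℝ) ≤ (1 / 2) ^ N := by positivity
      linarith
    have h8 : 0 ≤ C * (N : ℝ) ^ β := mul_nonneg hC (Real.rpow_nonneg hN0 _)
    calc (∑ k ∈ Finset.Ioc 0 N, (1 / 2 : ℝ) ^ k) * (C * (N : ℝ) ^ β) ≤ 1 * (C * (N : ℝ) ^ β) :=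
          mul_le_mul_of_nonneg_right h5 h8
      _ = _ := one_mul _
  · rw [abs_mul, abs_of_nonneg hN0]
    refine (mul_le_mul_of_nonneg_left (log_two_tail N) hN0).trans ?_
    have h9 : (N : ℝ) ≤ 2 ^ N := by exact_mod_cast (Nat.lt_two_pow_self (n := N)).le
    rw [one_div, inv_pow, ← div_eq_mul_inv]
    exact (div_le_one (by positivity)).2 h9

end Pool.Agent.Helper54.Lcm
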