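import Mathlib

/-!
# Concentration of the logarithm of the least common multiple of a subset
-/

set_option autoImplicit false

open Finset

namespace Pool.Agent.Helper54.Lcm

/-! ## averages over the subsets of a finite set -/

/-- the average of `F` over the subsets of `U` -/
noncomputable def avg (U : Finset ℕ) (F : Finset ℕ → ℝ) : ℝ := (1 / 2) ^ U.card * ∑ B ∈ U.powerset, F B

lemma avg_one (U : Finset ℕ) : avg U (fun _ => 1) = 1 := by
  unfold avg
  rw [Finset.sum_const, Finset.card_powerset, nsmul_eq_mul, mul_one]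
  push_cast
  rw [← mul_pow]
  norm_num

lemma avg_mono {U : Finset ℕ} {F G : Finset ℕ → ℝ} (h : ∀ B ⊆ U, F B ≤ G B) : avg U F ≤ avg U G := by
  unfold avg
  refine mul_le_mul_of_nonneg_left (Finset.sum_le_sum fun B hB => h B (Finset.mem_powerset.1 hB)) (by positivity)

lemma avg_nonneg {U : Finset ℕ} {F : Finset ℕ → ℝ} (h : ∀ B ⊆ U, 0 ≤ F B) : 0 ≤ avg U F := by
  unfold avg
  refine mul_nonneg (by positivity) (Finset.sum_nonneg fun B hB => h B (Finset.mem_powerset.1 hB))

lemma sum_split {U S : Finset ℕ} (hS : S ⊆ U) (F : Finset ℕ → ℝ) :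
    ∑ B ∈ U.powerset, F B = ∑ C ∈ S.powerset, ∑ D ∈ (U \ S).powerset, F (C ∪ D) := by
  rw [← Finset.sum_product']
  refine Finset.sum_nbij' (fun B => (B ∩ S, B \ S)) (fun p => p.1 ∪ p.2) ?_ ?_ ?_ ?_ ?_
  · intro B hB
    rw [Finset.mem_powerset] at hB
    rw [Finset.mem_product, Finset.mem_powerset, Finset.mem_powerset]
    exact ⟨Finset.inter_subset_right, Finset.sdiff_subset_sdiff hB (Finset.Subset.refl _)⟩
  · rintro ⟨C, D⟩ h
    rw [Finset.mem_product, Finset.mem_powerset, Finset.mem_powerset] at h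
    rw [Finset.mem_powerset]
    exact Finset.union_subset (h.1.trans hS) (h.2.trans Finset.sdiff_subset)
  · intro B _
    change B ∩ S ∪ B \ S = B
    rw [Finset.union_comm]
    exact Finset.sdiff_union_inter B S
  · rintro ⟨C, D⟩ h
    rw [Finset.mem_product, Finset.mem_powerset, Finset.mem_powerset] at h
    obtain ⟨h1, h2⟩ := h
    have h3 : Disjoint D S := (Finset.subset_sdiff.1 h2).2
    simp only [Prod.mk.injEq]
    constructor
    · rw [Finset.union_inter_distrib_right, Finset.inter_eq_left.2 h1,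
        Finset.disjoint_iff_inter_eq_empty.1 h3, Finset.union_empty]
    · rw [Finset.union_sdiff_distrib, Finset.sdiff_eq_empty_iff_subset.2 h1,
        Finset.sdiff_eq_self_of_disjoint h3, Finset.empty_union]
  · intro B _
    change F B = F (B ∩ S ∪ B \ S)
    rw [Finset.union_comm, Finset.sdiff_union_inter]

/-- independence over disjoint blocks -/
lemma avg_prod {ι : Type*} [DecidableEq ι] (P : Finset ι) (S : ι → Finset ℕ) (g : ι → Finset ℕ → ℝ) :
    ∀ U : Finset ℕ, (∀ i ∈ P, S i ⊆ U) → (∀ i ∈ P, ∀ j ∈ P, i ≠ j → Disjoint (S i) (S j)) →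
    avg U (fun B => ∏ i ∈ P, g i (B ∩ S i)) = ∏ i ∈ P, avg (S i) (g i) := by
  induction P using Finset.induction_on with
  | empty => intro U _ _; simp [avg_one]
  | insert a P ha ih =>
    intro U hU hd
    have haU : S a ⊆ U := hU a (Finset.mem_insert_self a P)
    have hdis : ∀ i ∈ P, Disjoint (S i) (S a) := fun i hi =>
      hd i (Finset.mem_insert_of_mem hi) a (Finset.mem_insert_self a P) (by rintro rfl; exact ha hi)
    have ih' := ih (U \ S a) (fun i hi => Finset.subset_sdiff.2
      ⟨hU i (Finset.mem_insert_of_mem hi), hdis i hi⟩)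
      (fun i hi j hj hij => hd i (Finset.mem_insert_of_mem hi) j (Finset.mem_insert_of_mem hj) hij)
    rw [Finset.prod_insert ha, ← ih']
    unfold avg
    rw [sum_split haU]
    have hcard : U.card = (S a).card + (U \ S a).card := by
      rw [add_comm, Finset.card_sdiff_add_card_eq_card haU]
    rw [hcard, pow_add]
    have h1 : ∀ C ∈ (S a).powerset, ∀ D ∈ (U \ S a).powerset,
        ∏ i ∈ insert a P, g i ((C ∪ D) ∩ S i) = g a C * ∏ i ∈ P, g i (D ∩ S i) := by
      intro C hC D hD
      rw [Finset.mem_powerset] at hC hD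
      have h3 : Disjoint D (S a) := (Finset.subset_sdiff.1 hD).2
      rw [Finset.prod_insert ha]
      congr 1
      · congr 1
        rw [Finset.union_inter_distrib_right, Finset.inter_eq_left.2 hC,
          Finset.disjoint_iff_inter_eq_empty.1 h3, Finset.union_empty]
      · refine Finset.prod_congr rfl fun i hi => ?_
        congr 1
        have h4 : C ∩ S i = ∅ := by
          rw [← Finset.disjoint_iff_inter_eq_empty]
          exact (hdis i hi).symm.mono_left hC
        rw [Finset.union_inter_distrib_right, h4, Finset.empty_union]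
    rw [Finset.sum_congr rfl fun C hC => Finset.sum_congr rfl fun D hD => h1 C hC D hD]
    rw [← Finset.sum_mul_sum]
    ring

/-- a function of the nonemptiness -/
lemma avg_nonempty (S : Finset ℕ) (x y : ℝ) :
    avg S (fun C => if C.Nonempty then x else y) = (1 / 2) ^ S.card * y + (1 - (1 / 2) ^ S.card) * x := by
  have h1 : ∑ C ∈ S.powerset, (if C.Nonempty then x else y) = (2 ^ S.card - 1) * x + y := by
    rw [← Finset.sum_erase_add S.powerset _ (Finset.empty_mem_powerset S)]
    rw [Finset.sum_congr rfl (g := fun _ => x), Finset.sum_const,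
      Finset.card_erase_of_mem (Finset.empty_mem_powerset S), Finset.card_powerset, nsmul_eq_mul]
    · rw [if_neg (by simp)]
      congr 1
      rw [Nat.cast_sub Nat.one_le_two_pow]
      push_cast
      ring
    · intro C hC
      rw [Finset.mem_erase] at hC
      rw [if_pos (Finset.nonempty_iff_ne_empty.2 hC.1)]
  unfold avg
  rw [h1]
  have h2 : (1 / 2 : ℝ) ^ S.card * 2 ^ S.card = 1 := by
    rw [← mul_pow]
    norm_num
  linear_combination x * h2

/-- the moment generating function of one indicator -/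
lemma avg_exp (S : Finset ℕ) {u : ℝ} (hu : |u| ≤ 1) :
    avg S (fun C => Real.exp (u * ((if C.Nonempty then 1 else 0) - (1 - (1 / 2) ^ S.card)))) ≤
      Real.exp (u ^ 2) := by
  set q : ℝ := (1 / 2) ^ S.card with hq
  have hq0 : 0 ≤ q := by positivity
  have hq1 : q ≤ 1 := pow_le_one₀ (by norm_num) (by norm_num)
  have h1 : (fun C : Finset ℕ => Real.exp (u * ((if C.Nonempty then 1 else 0) - (1 - q)))) =
      fun C => if C.Nonempty then Real.exp (u * q) else Real.exp (u * (-(1 - q))) := by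
    funext C
    split_ifs
    · congr 1; ring
    · congr 1; ring
  rw [h1, avg_nonempty, ← hq]
  have hle : ∀ x : ℝ, |x| ≤ 1 → Real.exp x ≤ 1 + x + x ^ 2 := by
    intro x hx
    have := (abs_le.1 (Real.abs_exp_sub_one_sub_id_le hx)).2
    linarith
  have hu1 : |u * q| ≤ 1 := by
    rw [abs_mul, abs_of_nonneg hq0]
    nlinarith [abs_nonneg u]
  have hu2 : |u * (-(1 - q))| ≤ 1 := by
    rw [abs_mul, abs_neg, abs_of_nonneg (by linarith : 0 ≤ 1 - q)]
    nlinarith [abs_nonneg u]
  have h2 := hle _ hu1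
  have h3 := hle _ hu2
  have h4 : q * Real.exp (u * (-(1 - q))) + (1 - q) * Real.exp (u * q) ≤ 1 + u ^ 2 := by
    have h5 : q * Real.exp (u * (-(1 - q))) ≤ q * (1 + u * (-(1 - q)) + (u * (-(1 - q))) ^ 2) :=
      mul_le_mul_of_nonneg_left h3 hq0
    have h6 : (1 - q) * Real.exp (u * q) ≤ (1 - q) * (1 + u * q + (u * q) ^ 2) :=
      mul_le_mul_of_nonneg_left h2 (by linarith)
    have h7 : q * (1 - q) ≤ 1 := by nlinarith
    have h8 : 0 ≤ u ^ 2 := sq_nonneg u
    nlinarith [mul_le_mul_of_nonneg_left h7 h8]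
  refine h4.trans ?_
  have := Real.add_one_le_exp (u ^ 2)
  linarith

/-! ## the least common multiple -/

open ArithmeticFunction in
/-- `log lcm B = ∑ Λ(m)` over the `m ≤ N` which divide an element of `B` -/
lemma log_lcm {N : ℕ} {B : Finset ℕ} (hB : B ⊆ Icc 1 N) :
    Real.log ((B.lcm id : ℕ) : ℝ) = ∑ m ∈ Ioc 0 N, vonMangoldt m * (if ∃ b ∈ B, m ∣ b then 1 else 0) := by
  classical
  rw [← vonMangoldt_sum]
  have hpos : ∀ b ∈ B, 1 ≤ b ∧ b ≤ N := fun b hb => Finset.mem_Icc.1 (hB hb)
  have hne : B.lcm id ≠ 0 := by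
    rw [Ne, Finset.lcm_eq_zero_iff]
    rintro ⟨b, hb, h⟩
    have := (hpos b hb).1
    simp only [id_eq] at h
    omega
  have h1 : ∑ m ∈ Ioc 0 N, vonMangoldt m * (if ∃ b ∈ B, m ∣ b then (1:ℝ) else 0) =
      ∑ m ∈ (Ioc 0 N).filter (fun m => ∃ b ∈ B, m ∣ b), vonMangoldt m := by
    rw [Finset.sum_filter]
    exact Finset.sum_congr rfl fun m _ => by split_ifs <;> simp
  rw [h1]
  symm
  refine Finset.sum_subset ?_ ?_
  · intro m hm
    rw [Finset.mem_filter] at hm
    obtain ⟨_, b, hb, hmb⟩ := hm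
    rw [Nat.mem_divisors]
    exact ⟨hmb.trans (Finset.dvd_lcm (f := id) hb), hne⟩
  · intro m hm hm2
    rw [Nat.mem_divisors] at hm
    by_contra hΛ
    have hpp : IsPrimePow m := vonMangoldt_ne_zero_iff.1 hΛ
    apply hm2
    have key : ∀ C : Finset ℕ, (∀ b ∈ C, b ≠ 0) → m ∣ C.lcm id → ∃ b ∈ C, m ∣ b := by
      intro C
      induction C using Finset.induction_on with
      | empty =>
        intro _ h
        rw [Finset.lcm_empty] at h
        have : m = 1 := Nat.dvd_one.1 h
        subst this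
        exact absurd hpp (by simpa using not_isPrimePow_one)
      | insert a C ha ih =>
        intro h0 h
        rw [Finset.lcm_insert] at h
        have ha0 : a ≠ 0 := h0 a (Finset.mem_insert_self a C)
        have hC0 : C.lcm id ≠ 0 := by
          rw [Ne, Finset.lcm_eq_zero_iff]
          rintro ⟨b, hb, h⟩
          exact h0 b (Finset.mem_insert_of_mem hb) h
        obtain ⟨p, k, hp, hk, rfl⟩ := (isPrimePow_nat_iff m).1 hpp
        have h2 : p ^ k ∣ a ∨ p ^ k ∣ C.lcm id := by
          have h3 : k ≤ (GCDMonoid.lcm (id a) (C.lcm id)).factorization p :=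
            (hp.pow_dvd_iff_le_factorization (by
              rw [Ne, _root_.lcm_eq_zero_iff]
              push Not
              exact ⟨ha0, hC0⟩)).1 h
          have h4 : (GCDMonoid.lcm (id a) (C.lcm id)).factorization =
              a.factorization ⊔ (C.lcm id).factorization := Nat.factorization_lcm ha0 hC0
          rw [h4, Finsupp.sup_apply, le_sup_iff] at h3
          rcases h3 with h3 | h3
          · exact Or.inl ((hp.pow_dvd_iff_le_factorization ha0).2 h3)
          · exact Or.inr ((hp.pow_dvd_iff_le_factorization hC0).2 h3)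
        rcases h2 with h2 | h2
        · exact ⟨a, Finset.mem_insert_self a C, h2⟩
        · obtain ⟨b, hb, hb2⟩ := ih (fun b hb => h0 b (Finset.mem_insert_of_mem hb)) h2
          exact ⟨b, Finset.mem_insert_of_mem hb, hb2⟩
    obtain ⟨b, hb, hmb⟩ := key B (fun b hb => by have := (hpos b hb).1; omega) hm.1
    rw [Finset.mem_filter, Finset.mem_Ioc]
    have hb1 := hpos b hb
    exact ⟨⟨hpp.pos, (Nat.le_of_dvd (by omega) hmb).trans hb1.2⟩, b, hb, hmb⟩

/-! ## the large primes -/

/-- the primes `√N < p ≤ N` -/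
def PN (N : ℕ) : Finset ℕ := (Ioc 0 N).filter (fun p => p.Prime ∧ N < p * p)

/-- the multiples of `p` up to `N` -/
def SN (N p : ℕ) : Finset ℕ := (Ioc 0 N).filter (fun m => p ∣ m)

lemma SN_card (N p : ℕ) : (SN N p).card = N / p := Nat.Ioc_filter_dvd_card_eq_div N p

lemma SN_sub (N p : ℕ) : SN N p ⊆ Ioc 0 N := Finset.filter_subset _ _

lemma SN_disj {N p q : ℕ} (hp : p ∈ PN N) (hq : q ∈ PN N) (hpq : p ≠ q) : Disjoint (SN N p) (SN N q) := by
  rw [Finset.disjoint_left]
  intro m h1 h2
  unfold SN at h1 h2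
  unfold PN at hp hq
  rw [Finset.mem_filter, Finset.mem_Ioc] at h1 h2 hp hq
  have hcop : Nat.Coprime p q := (Nat.coprime_primes hp.2.1 hq.2.1).2 hpq
  have h3 : p * q ∣ m := hcop.mul_dvd_of_dvd_of_dvd h1.2 h2.2
  have h4 : p * q ≤ m := Nat.le_of_dvd h1.1.1 h3
  have h5 : N < p * q ∨ N < q * p := by
    rcases lt_or_gt_of_ne hpq with h | h
    · left
      exact hp.2.2.trans_le (Nat.mul_le_mul_left p h.le)
    · right
      exact hq.2.2.trans_le (Nat.mul_le_mul_left q h.le)
  have h6 := h1.1.2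
  rcases h5 with h5 | h5
  · omega
  · rw [mul_comm] at h5
    omega

/-- the part of the logarithm which comes from the large primes, minus its mean -/
noncomputable def XB (N : ℕ) (B : Finset ℕ) : ℝ :=
  ∑ p ∈ PN N, Real.log p * ((if (B ∩ SN N p).Nonempty then 1 else 0) - (1 - (1 / 2) ^ (N / p)))

lemma log_le_of_mem {N p : ℕ} (hp : p ∈ PN N) : 0 ≤ Real.log p ∧ Real.log p ≤ Real.log N := by
  unfold PN at hp
  rw [Finset.mem_filter, Finset.mem_Ioc] at hp
  have h1 : (1 : ℝ) ≤ p := by exact_mod_cast hp.1.1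
  exact ⟨Real.log_nonneg h1, Real.log_le_log (by linarith) (by exact_mod_cast hp.1.2)⟩

lemma mgf (N : ℕ) {l : ℝ} (hl : |l| * Real.log N ≤ 1) :
    avg (Ioc 0 N) (fun B => Real.exp (l * XB N B)) ≤ Real.exp (l ^ 2 * (N * Real.log N ^ 2)) := by
  have h1 : (fun B : Finset ℕ => Real.exp (l * XB N B)) = fun B => ∏ p ∈ PN N,
      (fun (p : ℕ) (C : Finset ℕ) => Real.exp (l * Real.log p *
        ((if C.Nonempty then 1 else 0) - (1 - (1 / 2) ^ (SN N p).card)))) p (B ∩ SN N p) := by
    funext B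
    unfold XB
    rw [Finset.mul_sum, Real.exp_sum]
    refine Finset.prod_congr rfl fun p _ => ?_
    simp only [SN_card]
    rw [mul_assoc]
  have h1' := avg_prod (PN N) (SN N) (fun (p : ℕ) (C : Finset ℕ) => Real.exp (l * Real.log p *
        ((if C.Nonempty then 1 else 0) - (1 - (1 / 2) ^ (SN N p).card)))) (Ioc 0 N)
        (fun p _ => SN_sub N p) (fun p hp q hq h => SN_disj hp hq h)
  rw [h1]
  refine (le_of_eq h1').trans ?_
  have h2 : ∀ p ∈ PN N, |l * Real.log p| ≤ 1 := by
    intro p hp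
    obtain ⟨h3, h4⟩ := log_le_of_mem hp
    rw [abs_mul, abs_of_nonneg h3]
    exact (mul_le_mul_of_nonneg_left h4 (abs_nonneg l)).trans hl
  refine (Finset.prod_le_prod (fun p _ => avg_nonneg fun B _ => (Real.exp_pos _).le)
    (fun p hp => avg_exp (SN N p) (h2 p hp))).trans ?_
  rw [← Real.exp_sum]
  refine Real.exp_le_exp.2 ?_
  have h5 : ∀ p ∈ PN N, (l * Real.log p) ^ 2 ≤ l ^ 2 * Real.log N ^ 2 := by
    intro p hp
    obtain ⟨h3, h4⟩ := log_le_of_mem hp
    rw [mul_pow]
    gcongr
  refine (Finset.sum_le_card_nsmul _ _ _ h5).trans ?_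
  rw [nsmul_eq_mul]
  have h6 : ((PN N).card : ℝ) ≤ N := by
    have : (PN N).card ≤ N := (Finset.card_filter_le _ _).trans (by simp)
    exact_mod_cast this
  have h7 : 0 ≤ l ^ 2 * Real.log N ^ 2 := by positivity
  calc ((PN N).card : ℝ) * (l ^ 2 * Real.log N ^ 2) ≤ N * (l ^ 2 * Real.log N ^ 2) :=
        mul_le_mul_of_nonneg_right h6 h7
    _ = _ := by ring

lemma card_markov (N : ℕ) (t l : ℝ) (hl0 : 0 ≤ l) (hl : l * Real.log N ≤ 1) :
    (((Ioc 0 N).powerset.filter (fun B => t ≤ |XB N B|)).card : ℝ) ≤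
      2 ^ N * (2 * Real.exp (l ^ 2 * (N * Real.log N ^ 2) - l * t)) := by
  have h1 := mgf N (l := l) (by rwa [abs_of_nonneg hl0])
  have h2 := mgf N (l := -l) (by rwa [abs_neg, abs_of_nonneg hl0])
  rw [neg_sq] at h2
  unfold avg at h1 h2
  rw [Nat.card_Ioc, Nat.sub_zero] at h1 h2
  have h3 : ∀ B ∈ (Ioc 0 N).powerset, (if t ≤ |XB N B| then (1:ℝ) else 0) ≤
      Real.exp (-(l * t)) * (Real.exp (l * XB N B) + Real.exp (-l * XB N B)) := by
    intro B _
    split_ifs with h
    · rw [mul_add, ← Real.exp_add, ← Real.exp_add]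
      have h4 := Real.exp_pos (-(l * t) + l * XB N B)
      have h5 := Real.exp_pos (-(l * t) + -l * XB N B)
      rcases le_abs.1 h with h6 | h6
      · have : 1 ≤ Real.exp (-(l * t) + l * XB N B) := Real.one_le_exp (by nlinarith)
        linarith
      · have : 1 ≤ Real.exp (-(l * t) + -l * XB N B) := Real.one_le_exp (by nlinarith)
        linarith
    · positivity
  have h4 := Finset.sum_le_sum h3
  rw [← Finset.mul_sum, Finset.sum_add_distrib, Finset.sum_boole] at h4
  refine h4.trans ?_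
  have hp : (0:ℝ) < 2 ^ N := by positivity
  have e1 : (1 / 2 : ℝ) ^ N = (2 ^ N)⁻¹ := by rw [one_div, inv_pow]
  rw [e1, inv_mul_le_iff₀ hp] at h1 h2
  calc Real.exp (-(l * t)) * (∑ B ∈ (Ioc 0 N).powerset, Real.exp (l * XB N B) +
        ∑ B ∈ (Ioc 0 N).powerset, Real.exp (-l * XB N B))
      ≤ Real.exp (-(l * t)) * (2 ^ N * Real.exp (l ^ 2 * (N * Real.log N ^ 2)) +
          2 ^ N * Real.exp (l ^ 2 * (N * Real.log N ^ 2))) := by gcongr
    _ = 2 ^ N * (2 * (Real.exp (l ^ 2 * (N * Real.log N ^ 2)) * Real.exp (-(l * t)))) := by ring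
    _ = _ := by rw [← Real.exp_add]; rfl

end Pool.Agent.Helper54.Lcm
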