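import Pool.Agent.Helper54.Lcm.B
import Pool.Agent.Helper54.Lcm.C

/-!
# Most subsets of `{1, …, N}` have a least common multiple close to `exp (E N)`
-/

set_option autoImplicit false

open Filter Topology Finset
open ArithmeticFunction (vonMangoldt)

namespace Pool.Agent.Helper54.Lcm

/-- the remainder: the prime powers which are not large primes -/
lemma rem_le {N : ℕ} (hN : 1 ≤ N) : ∑ m ∈ Ioc 0 N \ PN N, vonMangoldt m ≤ 2 * √N * Real.log N + Real.log 4 * √N := by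
  have hN1 : (1:ℝ) ≤ N := by exact_mod_cast hN
  have hs : PN N ⊆ Ioc 0 N := Finset.filter_subset _ _
  have h1 : Chebyshev.psi N = ∑ m ∈ Ioc 0 N \ PN N, vonMangoldt m + ∑ p ∈ PN N, vonMangoldt p := by
    rw [Finset.sum_sdiff hs]
    unfold Chebyshev.psi
    rw [Nat.floor_natCast]
  have h2 : Chebyshev.theta N = ∑ p ∈ PN N, vonMangoldt p +
      ∑ p ∈ (Ioc 0 N).filter (fun p => p.Prime ∧ p * p ≤ N), vonMangoldt p := by
    unfold Chebyshev.theta
    rw [Nat.floor_natCast, ← Finset.sum_union]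
    · have e : PN N ∪ (Ioc 0 N).filter (fun p => p.Prime ∧ p * p ≤ N) = (Ioc 0 N).filter Nat.Prime := by
        ext p
        unfold PN
        simp only [Finset.mem_union, Finset.mem_filter]
        constructor
        · rintro (h | h)
          · exact ⟨h.1, h.2.1⟩
          · exact ⟨h.1, h.2.1⟩
        · rintro ⟨h, h'⟩
          rcases lt_or_ge N (p * p) with h3 | h3
          · exact Or.inl ⟨h, h', h3⟩
          · exact Or.inr ⟨h, h', h3⟩
      rw [e]
      exact Finset.sum_congr rfl fun p hp => by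
        rw [ArithmeticFunction.vonMangoldt_apply_prime (Finset.mem_filter.1 hp).2]
    · rw [Finset.disjoint_left]
      intro p h3 h4
      unfold PN at h3
      rw [Finset.mem_filter] at h3 h4
      omega
  have h3 : ∑ p ∈ (Ioc 0 N).filter (fun p => p.Prime ∧ p * p ≤ N), vonMangoldt p ≤ Chebyshev.theta (√N) := by
    unfold Chebyshev.theta
    rw [Finset.sum_congr rfl (g := fun p : ℕ => Real.log p) fun p hp =>
      ArithmeticFunction.vonMangoldt_apply_prime (Finset.mem_filter.1 hp).2.1]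
    refine Finset.sum_le_sum_of_subset_of_nonneg ?_ ?_
    · intro p hp
      rw [Finset.mem_filter, Finset.mem_Ioc] at hp ⊢
      refine ⟨⟨hp.1.1, Nat.le_floor (Real.le_sqrt_of_sq_le ?_)⟩, hp.2.1⟩
      rw [sq]
      exact_mod_cast hp.2.2
    · intro p hp _
      exact Real.log_natCast_nonneg p
  have h4 : Chebyshev.theta (√N) ≤ Real.log 4 * √N := Chebyshev.theta_le_log4_mul_x (Real.sqrt_nonneg _)
  have h5 := Chebyshev.psi_sub_theta_le hN1
  linarith

lemma decomp {N : ℕ} {B : Finset ℕ} (hB : B ⊆ Icc 1 N) :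
    |Real.log ((B.lcm id : ℕ) : ℝ) - E N - XB N B| ≤ ∑ m ∈ Ioc 0 N \ PN N, vonMangoldt m := by
  classical
  have h1 : Real.log ((B.lcm id : ℕ) : ℝ) - E N = ∑ m ∈ Ioc 0 N, vonMangoldt m *
      ((if ∃ b ∈ B, m ∣ b then 1 else 0) - (1 - (1 / 2) ^ (N / m))) := by
    rw [log_lcm hB]
    unfold E
    rw [← Finset.sum_sub_distrib]
    exact Finset.sum_congr rfl fun m _ => by ring
  have h2 : XB N B = ∑ p ∈ PN N, vonMangoldt p *
      ((if ∃ b ∈ B, p ∣ b then 1 else 0) - (1 - (1 / 2) ^ (N / p))) := by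
    unfold XB
    refine Finset.sum_congr rfl fun p hp => ?_
    unfold PN at hp
    rw [Finset.mem_filter] at hp
    rw [ArithmeticFunction.vonMangoldt_apply_prime hp.2.1]
    congr 2
    have e : (B ∩ SN N p).Nonempty ↔ ∃ b ∈ B, p ∣ b := by
      constructor
      · rintro ⟨b, hb⟩
        unfold SN at hb
        rw [Finset.mem_inter, Finset.mem_filter] at hb
        exact ⟨b, hb.1, hb.2.2⟩
      · rintro ⟨b, hb, hpb⟩
        refine ⟨b, ?_⟩
        unfold SN
        rw [Finset.mem_inter, Finset.mem_filter]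
        exact ⟨hb, hB hb, hpb⟩
    simp only [e]
  rw [h1, h2, ← Finset.sum_sdiff (Finset.filter_subset (fun p => p.Prime ∧ N < p * p) (Ioc 0 N))]
  change |∑ m ∈ Ioc 0 N \ PN N, _ + ∑ m ∈ PN N, _ - _| ≤ _
  rw [add_sub_cancel_right]
  refine (Finset.abs_sum_le_sum_abs _ _).trans (Finset.sum_le_sum fun m _ => ?_)
  rw [abs_mul, abs_of_nonneg ArithmeticFunction.vonMangoldt_nonneg]
  refine mul_le_of_le_one_right ArithmeticFunction.vonMangoldt_nonneg ?_
  have hq0 : (0:ℝ) ≤ (1 / 2) ^ (N / m) := by positivity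
  have hq1 : (1 / 2 : ℝ) ^ (N / m) ≤ 1 := pow_le_one₀ (by norm_num) (by norm_num)
  split_ifs
  · rw [abs_le]; constructor <;> linarith
  · rw [abs_le]; constructor <;> linarith

/-- for `c < 2 β - 1` all but `2 ^ N exp (- N ^ c)` subsets `B` of `{1, …, N}` satisfy
`|log lcm B - E N| ≤ N ^ β` -/
theorem concentration {β c K : ℝ} (hβ : 1 / 2 < β) (hβ1 : β ≤ 1) (hc : c < 2 * β - 1) (hK : 0 < K) :
    ∀ᶠ N : ℕ in atTop,
      (((Icc 1 N).powerset.filter (fun B => K * (N : ℝ) ^ β < |Real.log ((B.lcm id : ℕ) : ℝ) - E N|)).card : ℝ) ≤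
        2 ^ N * Real.exp (-(N : ℝ) ^ c) := by
  set c' : ℝ := max c 0 with hc'
  have hc0 : 0 ≤ c' := le_max_right _ _
  have hc1 : c ≤ c' := le_max_left _ _
  have hc2 : c' < 2 * β - 1 := max_lt hc (by linarith)
  -- the logarithm is small
  have hlog : ∀ (γ κ : ℝ), 0 < γ → 0 < κ → ∀ᶠ N : ℕ in atTop, Real.log N ≤ κ * (N : ℝ) ^ γ := by
    intro γ κ hγ hκ
    have h := (isLittleO_log_rpow_atTop hγ).bound hκ
    have h2 := tendsto_natCast_atTop_atTop.eventually h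
    filter_upwards [h2, eventually_ge_atTop 1] with N h3 h4
    have h5 : (1:ℝ) ≤ N := by exact_mod_cast h4
    rw [Real.norm_eq_abs, Real.norm_eq_abs, abs_of_nonneg (Real.log_nonneg h5),
      abs_of_nonneg (Real.rpow_nonneg (by linarith) _)] at h3
    exact h3
  have hγ : 0 < (2 * β - 1 - c') / 2 := by linarith
  have hδ : 0 < β - 1 / 2 := by linarith
  filter_upwards [hlog _ (K / 8) hγ (by positivity), hlog _ (K / 8) hδ (by positivity),
    eventually_ge_atTop 3, tendsto_natCast_atTop_atTop.eventually_ge_atTop (Real.exp (K / 4)),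
    (tendsto_rpow_atTop hδ).comp tendsto_natCast_atTop_atTop |>.eventually_ge_atTop (4 * Real.log 4 / K)]
    with N a1 a2 a3 a4 a5
  have hN3 : (3:ℝ) ≤ N := by exact_mod_cast a3
  have hN0 : (0:ℝ) < N := by linarith
  have hN1 : (1:ℝ) ≤ N := by linarith
  set L := Real.log N with hL
  have hL1 : 1 ≤ L := by
    rw [hL, Real.le_log_iff_exp_le hN0]
    have := Real.exp_one_lt_d9
    linarith
  have hLK : K / 4 ≤ L := by
    rw [hL, Real.le_log_iff_exp_le hN0]
    exact a4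
  have hL0 : 0 < L := by linarith
  -- the remainder
  have hsq : √(N:ℝ) * (N : ℝ) ^ (β - 1 / 2) = (N : ℝ) ^ β := by
    rw [Real.sqrt_eq_rpow, ← Real.rpow_add hN0]
    congr 1
    ring
  have hs0 : 0 ≤ √(N:ℝ) := Real.sqrt_nonneg _
  have hrem : ∑ m ∈ Ioc 0 N \ PN N, vonMangoldt m ≤ K / 2 * (N : ℝ) ^ β := by
    refine (rem_le (by omega)).trans ?_
    rw [← hsq]
    have b1 : 2 * √(N:ℝ) * L ≤ K / 4 * (√(N:ℝ) * (N : ℝ) ^ (β - 1 / 2)) := by
      calc 2 * √(N:ℝ) * L = (2 * √(N:ℝ)) * L := rfl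
        _ ≤ (2 * √(N:ℝ)) * (K / 8 * (N : ℝ) ^ (β - 1 / 2)) := mul_le_mul_of_nonneg_left a2 (by positivity)
        _ = _ := by ring
    have b2 : Real.log 4 * √(N:ℝ) ≤ K / 4 * (√(N:ℝ) * (N : ℝ) ^ (β - 1 / 2)) := by
      have b3 : 4 * Real.log 4 / K ≤ (N : ℝ) ^ (β - 1 / 2) := a5
      rw [div_le_iff₀ hK] at b3
      nlinarith [mul_le_mul_of_nonneg_left b3 hs0]
    linarith
  -- the large deviation bound
  set Z : ℝ := (N : ℝ) ^ (2 * β - 1) with hZ
  set l : ℝ := K / 4 * (N : ℝ) ^ (β - 1) / L ^ 2 with hl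
  have hl0 : 0 ≤ l := by positivity
  have hp1 : (N : ℝ) ^ (β - 1) ≤ 1 := Real.rpow_le_one_of_one_le_of_nonpos hN1 (by linarith)
  have hp0 : 0 ≤ (N : ℝ) ^ (β - 1) := by positivity
  have hlL : l * L ≤ 1 := by
    rw [hl, div_mul_eq_mul_div, div_le_one (by positivity)]
    have : K / 4 * (N : ℝ) ^ (β - 1) ≤ L := by nlinarith
    nlinarith
  have hmk := card_markov N (K / 2 * (N : ℝ) ^ β) l hl0 hlL
  have hexp : l ^ 2 * (N * L ^ 2) - l * (K / 2 * (N : ℝ) ^ β) = -(K ^ 2 / 16 * (Z / L ^ 2)) := by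
    have e1 : (N : ℝ) ^ (β - 1) * (N : ℝ) ^ β = Z := by
      rw [hZ, ← Real.rpow_add hN0]
      congr 1
      ring
    have e2 : ((N : ℝ) ^ (β - 1)) ^ 2 * N = Z := by
      rw [hZ, ← Real.rpow_natCast, ← Real.rpow_mul hN0.le]
      nth_rewrite 2 [← Real.rpow_one (N : ℝ)]
      rw [← Real.rpow_add hN0]
      congr 1
      push_cast
      ring
    have e3 : l ^ 2 * (N * L ^ 2) = K ^ 2 / 16 * (((N : ℝ) ^ (β - 1)) ^ 2 * N) / L ^ 2 := by
      rw [hl]
      field_simp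
      ring
    have e4 : l * (K / 2 * (N : ℝ) ^ β) = K ^ 2 / 8 * ((N : ℝ) ^ (β - 1) * (N : ℝ) ^ β) / L ^ 2 := by
      rw [hl]
      field_simp
      ring
    rw [e3, e4, e1, e2]
    ring
  rw [hexp] at hmk
  have hfin : 2 * Real.exp (-(K ^ 2 / 16 * (Z / L ^ 2))) ≤ Real.exp (-(N : ℝ) ^ c) := by
    have hW1 : 1 ≤ (N : ℝ) ^ c' := Real.one_le_rpow hN1 hc0
    have hW2 : (N : ℝ) ^ c ≤ (N : ℝ) ^ c' := Real.rpow_le_rpow_of_exponent_le hN1 hc1
    have hZ2 : Z = (N : ℝ) ^ c' * ((N : ℝ) ^ ((2 * β - 1 - c') / 2)) ^ 2 := by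
      rw [hZ, ← Real.rpow_natCast, ← Real.rpow_mul hN0.le, ← Real.rpow_add hN0]
      congr 1
      push_cast
      ring
    have hL2 : L ^ 2 ≤ (K / 8) ^ 2 * ((N : ℝ) ^ ((2 * β - 1 - c') / 2)) ^ 2 := by
      rw [← mul_pow]
      exact pow_le_pow_left₀ hL0.le a1 2
    have h5 : 2 * (N : ℝ) ^ c' ≤ K ^ 2 / 16 * (Z / L ^ 2) := by
      rw [mul_div_assoc', le_div_iff₀ (by positivity), hZ2]
      have h6 : 0 ≤ (N : ℝ) ^ c' := by positivity
      nlinarith [mul_le_mul_of_nonneg_left hL2 h6, mul_nonneg h6 (sq_nonneg ((N : ℝ) ^ ((2 * β - 1 - c') / 2)))]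
    have h7 : Real.log 2 ≤ 1 := by
      have := Real.log_two_lt_d9
      linarith
    rw [show (2:ℝ) = Real.exp (Real.log 2) from (Real.exp_log (by norm_num)).symm, ← Real.exp_add]
    refine Real.exp_le_exp.2 ?_
    linarith
  have hsub : (Icc 1 N).powerset.filter (fun B => K * (N : ℝ) ^ β < |Real.log ((B.lcm id : ℕ) : ℝ) - E N|) ⊆
      (Ioc 0 N).powerset.filter (fun B => K / 2 * (N : ℝ) ^ β ≤ |XB N B|) := by
    intro B hB
    rw [Finset.mem_filter, Finset.mem_powerset] at hB ⊢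
    refine ⟨hB.1, ?_⟩
    have h8 := decomp hB.1
    have h9 := abs_sub_abs_le_abs_sub (Real.log ((B.lcm id : ℕ) : ℝ) - E N) (XB N B)
    linarith [hB.2]
  calc ((((Icc 1 N).powerset.filter (fun B => K * (N : ℝ) ^ β <
        |Real.log ((B.lcm id : ℕ) : ℝ) - E N|)).card : ℕ) : ℝ)
      ≤ (((Ioc 0 N).powerset.filter (fun B => K / 2 * (N : ℝ) ^ β ≤ |XB N B|)).card : ℝ) := by
        exact_mod_cast Finset.card_le_card hsub
    _ ≤ _ := hmk
    _ ≤ _ := mul_le_mul_of_nonneg_left hfin (by positivity)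

end Pool.Agent.Helper54.Lcm
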