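import Pool.Agent.Helper54.Lcm.D

/-!
# The mean and the variance of `log lcm B`
-/

set_option autoImplicit false

open Filter Topology Finset
open ArithmeticFunction (vonMangoldt)

namespace Pool.Agent.Helper54.Lcm

lemma avg_sum {ι : Type*} (P : Finset ι) (U : Finset ℕ) (f : ι → Finset ℕ → ℝ) :
    avg U (fun B => ∑ i ∈ P, f i B) = ∑ i ∈ P, avg U (f i) := by
  unfold avg
  rw [Finset.sum_comm, Finset.mul_sum]

lemma avg_mul_left (U : Finset ℕ) (a : ℝ) (f : Finset ℕ → ℝ) : avg U (fun B => a * f B) = a * avg U f := by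
  unfold avg
  rw [← Finset.mul_sum]
  ring

lemma avg_add (U : Finset ℕ) (f g : Finset ℕ → ℝ) : avg U (fun B => f B + g B) = avg U f + avg U g := by
  unfold avg
  rw [Finset.sum_add_distrib]
  ring

lemma avg_const (U : Finset ℕ) (a : ℝ) : avg U (fun _ => a) = a := by
  have h := avg_mul_left U a (fun _ => 1)
  rw [avg_one] at h
  simpa using h

lemma avg_congr {U : Finset ℕ} {F G : Finset ℕ → ℝ} (h : ∀ B ⊆ U, F B = G B) : avg U F = avg U G := by
  unfold avg
  congr 1
  exact Finset.sum_congr rfl fun B hB => h B (Finset.mem_powerset.1 hB)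

lemma avg_single {U S : Finset ℕ} (h : S ⊆ U) (g : Finset ℕ → ℝ) :
    avg U (fun B => g (B ∩ S)) = avg S g := by
  have := avg_prod ({()} : Finset Unit) (fun _ => S) (fun _ => g) U (by simpa using h) (by simp)
  simpa using this

lemma avg_pair {U S T : Finset ℕ} (hS : S ⊆ U) (hT : T ⊆ U) (hd : Disjoint S T) (g h : Finset ℕ → ℝ) :
    avg U (fun B => g (B ∩ S) * h (B ∩ T)) = avg S g * avg T h := by
  have := avg_prod (Finset.univ : Finset Bool) (fun b => if b then S else T) (fun b => if b then g else h) U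
    (by intro i _; cases i <;> simp [hS, hT]) (by
      intro i _ j _ hij
      cases i <;> cases j <;> simp_all [disjoint_comm])
  simpa [Fintype.prod_bool] using this

/-- the centered indicator -/
noncomputable def Y (N p : ℕ) (B : Finset ℕ) : ℝ :=
  (if (B ∩ SN N p).Nonempty then 1 else 0) - (1 - (1 / 2) ^ (N / p))

lemma avg_ind (N p : ℕ) (x y : ℝ) :
    avg (Ioc 0 N) (fun B => if (B ∩ SN N p).Nonempty then x else y) =
      (1 / 2) ^ (N / p) * y + (1 - (1 / 2) ^ (N / p)) * x := by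
  have h := avg_single (SN_sub N p) (fun C => if C.Nonempty then x else y)
  rw [h, avg_nonempty, SN_card]

lemma avg_Y (N p : ℕ) : avg (Ioc 0 N) (Y N p) = 0 := by
  have h : avg (Ioc 0 N) (Y N p) = avg (Ioc 0 N) (fun B => if (B ∩ SN N p).Nonempty then
      (1 / 2) ^ (N / p) else -(1 - (1 / 2) ^ (N / p))) := by
    refine avg_congr fun B _ => ?_
    unfold Y
    split_ifs <;> ring
  rw [h, avg_ind]
  ring

lemma avg_Y_sq (N p : ℕ) : avg (Ioc 0 N) (fun B => Y N p B ^ 2) =
    (1 / 2) ^ (N / p) * (1 - (1 / 2) ^ (N / p)) := by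
  have h : avg (Ioc 0 N) (fun B => Y N p B ^ 2) = avg (Ioc 0 N) (fun B => if (B ∩ SN N p).Nonempty then
      ((1 / 2) ^ (N / p)) ^ 2 else (1 - (1 / 2) ^ (N / p)) ^ 2) := by
    refine avg_congr fun B _ => ?_
    unfold Y
    split_ifs <;> ring
  rw [h, avg_ind]
  ring

lemma avg_YY {N p q : ℕ} (hp : p ∈ PN N) (hq : q ∈ PN N) (hpq : p ≠ q) :
    avg (Ioc 0 N) (fun B => Y N p B * Y N q B) = 0 := by
  have h := avg_pair (SN_sub N p) (SN_sub N q) (SN_disj hp hq hpq)
    (fun C => (if C.Nonempty then 1 else 0) - (1 - (1 / 2) ^ (N / p)))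
    (fun C => (if C.Nonempty then 1 else 0) - (1 - (1 / 2) ^ (N / q)))
  have h2 : avg (SN N p) (fun C => (if C.Nonempty then (1:ℝ) else 0) - (1 - (1 / 2) ^ (N / p))) = 0 := by
    rw [← avg_single (SN_sub N p)]
    exact avg_Y N p
  rw [h2, zero_mul] at h
  exact h

/-- the variance of the part of the large primes -/
noncomputable def V (N : ℕ) : ℝ := ∑ p ∈ PN N, Real.log p ^ 2 * ((1 / 2) ^ (N / p) * (1 - (1 / 2) ^ (N / p)))

lemma XB_eq (N : ℕ) (B : Finset ℕ) : XB N B = ∑ p ∈ PN N, Real.log p * Y N p B := rfl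

lemma avg_XB (N : ℕ) : avg (Ioc 0 N) (XB N) = 0 := by
  have h : avg (Ioc 0 N) (XB N) = ∑ p ∈ PN N, avg (Ioc 0 N) (fun B => Real.log p * Y N p B) :=
    avg_sum (PN N) (Ioc 0 N) (fun (p : ℕ) (B : Finset ℕ) => Real.log p * Y N p B)
  rw [h]
  refine Finset.sum_eq_zero fun p _ => ?_
  rw [avg_mul_left]
  have := avg_Y N p
  change Real.log p * avg (Ioc 0 N) (Y N p) = 0
  rw [this, mul_zero]

lemma avg_XB_sq (N : ℕ) : avg (Ioc 0 N) (fun B => XB N B ^ 2) = V N := by
  have h : avg (Ioc 0 N) (fun B => XB N B ^ 2) = avg (Ioc 0 N) (fun B => ∑ p ∈ PN N, ∑ q ∈ PN N,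
      (Real.log p * Real.log q) * (Y N p B * Y N q B)) := by
    refine avg_congr fun B _ => ?_
    rw [XB_eq, sq, Finset.sum_mul_sum]
    refine Finset.sum_congr rfl fun p _ => Finset.sum_congr rfl fun q _ => ?_
    ring
  rw [h, avg_sum]
  unfold V
  refine Finset.sum_congr rfl fun p hp => ?_
  rw [avg_sum, Finset.sum_eq_single p]
  · rw [avg_mul_left]
    have h2 := avg_Y_sq N p
    simp only [sq] at h2 ⊢
    rw [h2]
  · intro q hq hqp
    rw [avg_mul_left, avg_YY hp hq hqp.symm, mul_zero]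
  · intro h
    exact absurd hp h

/-! ## bounds for the variance -/

lemma V_le (N : ℕ) : V N ≤ Real.log N * (Real.log 4 * N) := by
  have h1 : V N ≤ ∑ p ∈ PN N, Real.log N * Real.log p := by
    unfold V
    refine Finset.sum_le_sum fun p hp => ?_
    obtain ⟨h1, h2⟩ := log_le_of_mem hp
    have hq0 : (0:ℝ) ≤ (1 / 2) ^ (N / p) := by positivity
    have hq1 : (1 / 2 : ℝ) ^ (N / p) ≤ 1 := pow_le_one₀ (by norm_num) (by norm_num)
    have h3 : (1 / 2 : ℝ) ^ (N / p) * (1 - (1 / 2) ^ (N / p)) ≤ 1 := by nlinarith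
    calc Real.log p ^ 2 * ((1 / 2) ^ (N / p) * (1 - (1 / 2) ^ (N / p))) ≤ Real.log p ^ 2 * 1 :=
          mul_le_mul_of_nonneg_left h3 (sq_nonneg _)
      _ = Real.log p * Real.log p := by ring
      _ ≤ Real.log N * Real.log p := mul_le_mul_of_nonneg_right h2 h1
  refine h1.trans ?_
  rw [← Finset.mul_sum]
  refine mul_le_mul_of_nonneg_left ?_ (Real.log_natCast_nonneg N)
  refine le_trans ?_ (Chebyshev.theta_le_log4_mul_x (Nat.cast_nonneg N))
  unfold Chebyshev.theta
  rw [Nat.floor_natCast]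
  refine Finset.sum_le_sum_of_subset_of_nonneg ?_ fun p _ _ => Real.log_natCast_nonneg p
  intro p hp
  unfold PN at hp
  rw [Finset.mem_filter] at hp ⊢
  exact ⟨hp.1, hp.2.1⟩

lemma V_nonneg (N : ℕ) : 0 ≤ V N := by
  unfold V
  refine Finset.sum_nonneg fun p _ => ?_
  have hq0 : (0:ℝ) ≤ (1 / 2) ^ (N / p) := by positivity
  have hq1 : (1 / 2 : ℝ) ^ (N / p) ≤ 1 := pow_le_one₀ (by norm_num) (by norm_num)
  exact mul_nonneg (sq_nonneg _) (mul_nonneg hq0 (by linarith))

lemma V_ge : ∀ᶠ N : ℕ in atTop, 1 / 256 * (N * Real.log N) ≤ V N := by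
  have hlog2 := Real.log_two_gt_d9
  have hlog2' := Real.log_two_lt_d9
  have hlog4 : Real.log 4 = 2 * Real.log 2 := by
    rw [show (4:ℝ) = 2 ^ 2 by norm_num, Real.log_pow]
    push_cast
    ring
  have hlo : ∀ᶠ N : ℕ in atTop, Real.log (N + 1) + 2 * √N * Real.log N ≤ 1 / 100 * N := by
    have h1 : (fun x : ℝ => Real.log (x + 1) + 2 * √x * Real.log x) =o[atTop] fun x : ℝ => x := by
      have a1 : (fun x : ℝ => Real.log (x + 1)) =o[atTop] fun x : ℝ => x := by
        have b1 : (fun x : ℝ => Real.log (x + 1)) =O[atTop] fun x : ℝ => Real.log x := by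
          refine Asymptotics.IsBigO.of_bound 2 ?_
          filter_upwards [eventually_ge_atTop 2] with x hx
          rw [Real.norm_eq_abs, Real.norm_eq_abs, abs_of_nonneg (Real.log_nonneg (by linarith)),
            abs_of_nonneg (Real.log_nonneg (by linarith))]
          calc Real.log (x + 1) ≤ Real.log (x ^ 2) := Real.log_le_log (by linarith) (by nlinarith)
            _ = 2 * Real.log x := by rw [Real.log_pow]; push_cast; ring
        exact b1.trans_isLittleO Real.isLittleO_log_id_atTop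
      have a2 : (fun x : ℝ => 2 * √x * Real.log x) =o[atTop] fun x : ℝ => x := by
        have b1 : (fun x : ℝ => Real.log x) =o[atTop] fun x : ℝ => x ^ (1 / 2 : ℝ) :=
          isLittleO_log_rpow_atTop (by norm_num)
        have b2 : (fun x : ℝ => 2 * √x) =O[atTop] fun x : ℝ => x ^ (1 / 2 : ℝ) := by
          refine Asymptotics.IsBigO.of_bound 2 (Eventually.of_forall fun x => ?_)
          rw [norm_mul, Real.sqrt_eq_rpow]
          norm_num
        have b3 := b2.mul_isLittleO b1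
        refine b3.trans_eventuallyEq ?_
        filter_upwards [eventually_gt_atTop 0] with x hx
        rw [← Real.rpow_add hx]
        norm_num
      exact a1.add a2
    have h2 := h1.bound (by norm_num : (0:ℝ) < 1 / 100)
    have h3 := tendsto_natCast_atTop_atTop.eventually h2
    filter_upwards [h3] with N hN
    rw [Real.norm_eq_abs, Real.norm_eq_abs, abs_of_nonneg (Nat.cast_nonneg N : (0:ℝ) ≤ N)] at hN
    exact (le_abs_self _).trans hN
  filter_upwards [hlo, eventually_ge_atTop 16] with N h1 h2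
  have hN : (16:ℝ) ≤ N := by exact_mod_cast h2
  have hN0 : (0:ℝ) < N := by linarith
  have hth := Chebyshev.theta_ge N
  have hth4 := Chebyshev.theta_le_log4_mul_x (x := (N:ℝ) / 4) (by positivity)
  -- the primes in `(N / 4, N]`
  have hsub : (Ioc ⌊(N:ℝ) / 4⌋₊ N).filter Nat.Prime ⊆ PN N := by
    intro p hp
    rw [Finset.mem_filter, Finset.mem_Ioc] at hp
    unfold PN
    rw [Finset.mem_filter, Finset.mem_Ioc]
    have h3 : (N:ℝ) / 4 < p := (Nat.floor_lt (by positivity)).1 hp.1.1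
    refine ⟨⟨hp.2.pos, hp.1.2⟩, hp.2, ?_⟩
    have h4 : (N:ℝ) < p * p := by nlinarith
    exact_mod_cast h4
  have hsum : Real.log N / 2 * (Chebyshev.theta N - Chebyshev.theta (N / 4)) ≤
      ∑ p ∈ (Ioc ⌊(N:ℝ) / 4⌋₊ N).filter Nat.Prime, Real.log p ^ 2 := by
    have e1 : Chebyshev.theta N - Chebyshev.theta (N / 4) =
        ∑ p ∈ (Ioc ⌊(N:ℝ) / 4⌋₊ N).filter Nat.Prime, Real.log p := by
      unfold Chebyshev.theta
      rw [Nat.floor_natCast]
      have hle : ⌊(N:ℝ) / 4⌋₊ ≤ N := by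
        have := Nat.floor_le (by positivity : 0 ≤ (N:ℝ) / 4)
        have h5 : ((⌊(N:ℝ) / 4⌋₊ : ℕ) : ℝ) ≤ N := by linarith
        exact_mod_cast h5
      have hu : (Ioc 0 N).filter Nat.Prime = (Ioc 0 ⌊(N:ℝ) / 4⌋₊).filter Nat.Prime ∪
          (Ioc ⌊(N:ℝ) / 4⌋₊ N).filter Nat.Prime := by
        rw [← Finset.filter_union, Finset.Ioc_union_Ioc_eq_Ioc (Nat.zero_le _) hle]
      rw [hu, Finset.sum_union, add_sub_cancel_left]
      rw [Finset.disjoint_left]
      intro p h6 h7
      rw [Finset.mem_filter, Finset.mem_Ioc] at h6 h7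
      omega
    rw [e1, Finset.mul_sum]
    refine Finset.sum_le_sum fun p hp => ?_
    rw [Finset.mem_filter, Finset.mem_Ioc] at hp
    have h3 : (N:ℝ) / 4 < p := (Nat.floor_lt (by positivity)).1 hp.1.1
    have hp0 : (1:ℝ) ≤ p := by exact_mod_cast hp.2.pos
    have h4 : Real.log N / 2 ≤ Real.log p := by
      have h5 : Real.log N ≤ Real.log ((p:ℝ) ^ 2) := Real.log_le_log hN0 (by nlinarith)
      rw [Real.log_pow] at h5
      push_cast at h5
      linarith
    have h5 : 0 ≤ Real.log p := Real.log_nonneg hp0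
    nlinarith
  have hV : 1 / 32 * ∑ p ∈ (Ioc ⌊(N:ℝ) / 4⌋₊ N).filter Nat.Prime, Real.log p ^ 2 ≤ V N := by
    unfold V
    rw [Finset.mul_sum]
    refine le_trans (Finset.sum_le_sum fun p hp => ?_) (Finset.sum_le_sum_of_subset_of_nonneg hsub ?_)
    · rw [Finset.mem_filter, Finset.mem_Ioc] at hp
      have h3 : (N:ℝ) / 4 < p := (Nat.floor_lt (by positivity)).1 hp.1.1
      have hp0 : 0 < p := hp.2.pos
      have h4 : N / p < 4 := by
        rw [Nat.div_lt_iff_lt_mul hp0]
        have : (N:ℝ) < 4 * p := by linarith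
        exact_mod_cast this
      have h4' : 1 ≤ N / p := (Nat.one_le_div_iff hp0).2 hp.1.2
      have h5 : (1 / 2 : ℝ) ^ 4 ≤ (1 / 2) ^ (N / p) := pow_le_pow_of_le_one (by norm_num) (by norm_num) (by omega)
      have h6 : (1 / 2 : ℝ) ^ (N / p) ≤ (1 / 2) ^ 1 := pow_le_pow_of_le_one (by norm_num) (by norm_num) h4'
      have h7 : (1 / 32 : ℝ) ≤ (1 / 2) ^ (N / p) * (1 - (1 / 2) ^ (N / p)) := by
        norm_num at h5 h6 ⊢
        nlinarith
      rw [mul_comm]
      exact mul_le_mul_of_nonneg_left h7 (sq_nonneg _)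
    · intro p _ _
      have hq0 : (0:ℝ) ≤ (1 / 2) ^ (N / p) := by positivity
      have hq1 : (1 / 2 : ℝ) ^ (N / p) ≤ 1 := pow_le_one₀ (by norm_num) (by norm_num)
      exact mul_nonneg (sq_nonneg _) (mul_nonneg hq0 (by linarith))
  have hL : 0 ≤ Real.log N := Real.log_natCast_nonneg N
  have hdiff : 1 / 4 * (N:ℝ) ≤ Chebyshev.theta N - Chebyshev.theta (N / 4) := by
    rw [hlog4] at hth4
    nlinarith
  nlinarith [mul_le_mul_of_nonneg_left hdiff hL]

/-- the remainder is `O(√N)` -/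
lemma rem_sqrt : ∃ C : ℝ, 0 < C ∧ ∀ N : ℕ, 1 ≤ N → ∑ m ∈ Ioc 0 N \ PN N, vonMangoldt m ≤ C * √N := by
  obtain ⟨C, hC⟩ := Chebyshev.psi_sub_theta_le_mul_sqrt
  refine ⟨|C| + Real.log 4, add_pos_of_nonneg_of_pos (abs_nonneg _) (Real.log_pos (by norm_num)), ?_⟩
  intro N hN
  have hs : PN N ⊆ Ioc 0 N := Finset.filter_subset _ _
  have h1 : Chebyshev.psi N = ∑ m ∈ Ioc 0 N \ PN N, vonMangoldt m + ∑ p ∈ PN N, vonMangoldt p := by
    rw [Finset.sum_sdiff hs]
    unfold Chebyshev.psi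
    rw [Nat.floor_natCast]
  have h2 : Chebyshev.theta N = ∑ p ∈ PN N, vonMangoldt p +
      ∑ p ∈ (Ioc 0 N).filter (fun p => p.Prime ∧ p * p ≤ N), vonMangoldt p := by
    unfold Chebyshev.theta
    rw [Nat.floor_natCast, ← Finset.sum_union]
    · have e : PN N ∪ (Ioc 0 N).filter (fun p => p.Prime ∧ p * p ≤ N) = (Ioc 0 N).filter Nat.Prime := by
        ext p
        unfold PN
        simp only [Finset.mem_union, Finset.mem_filter]
        constructor
        · rintro (h | h)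
          · exact ⟨h.1, h.2.1⟩
          · exact ⟨h.1, h.2.1⟩
        · rintro ⟨h, h'⟩
          rcases lt_or_ge N (p * p) with h3 | h3
          · exact Or.inl ⟨h, h', h3⟩
          · exact Or.inr ⟨h, h', h3⟩
      rw [e]
      exact Finset.sum_congr rfl fun p hp => by
        rw [ArithmeticFunction.vonMangoldt_apply_prime (Finset.mem_filter.1 hp).2]
    · rw [Finset.disjoint_left]
      intro p h3 h4
      unfold PN at h3
      rw [Finset.mem_filter] at h3 h4
      omega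
  have h3 : ∑ p ∈ (Ioc 0 N).filter (fun p => p.Prime ∧ p * p ≤ N), vonMangoldt p ≤ Chebyshev.theta (√N) := by
    unfold Chebyshev.theta
    rw [Finset.sum_congr rfl (g := fun p : ℕ => Real.log p) fun p hp =>
      ArithmeticFunction.vonMangoldt_apply_prime (Finset.mem_filter.1 hp).2.1]
    refine Finset.sum_le_sum_of_subset_of_nonneg ?_ ?_
    · intro p hp
      rw [Finset.mem_filter, Finset.mem_Ioc] at hp ⊢
      refine ⟨⟨hp.1.1, Nat.le_floor (Real.le_sqrt_of_sq_le ?_)⟩, hp.2.1⟩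
      rw [sq]
      exact_mod_cast hp.2.2
    · intro p hp _
      exact Real.log_natCast_nonneg p
  have h4 : Chebyshev.theta (√N) ≤ Real.log 4 * √N := Chebyshev.theta_le_log4_mul_x (Real.sqrt_nonneg _)
  have h5 := hC N
  have h6 : C * √(N:ℝ) ≤ |C| * √N := mul_le_mul_of_nonneg_right (le_abs_self C) (Real.sqrt_nonneg _)
  linarith

/-! ## the moments of `log lcm B` -/

/-- the logarithm of the least common multiple -/
noncomputable def lg (B : Finset ℕ) : ℝ := Real.log ((B.lcm id : ℕ) : ℝ)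

/-- the exact mean -/
lemma avg_lg (N : ℕ) : avg (Icc 1 N) lg = E N := by
  have e0 : Icc 1 N = Ioc 0 N := rfl
  have h1 : avg (Icc 1 N) lg = avg (Icc 1 N) (fun B => ∑ m ∈ Ioc 0 N, vonMangoldt m *
      (if (B ∩ SN N m).Nonempty then 1 else 0)) := by
    refine avg_congr fun B hB => ?_
    unfold lg
    rw [log_lcm hB]
    refine Finset.sum_congr rfl fun m _ => ?_
    have e : (B ∩ SN N m).Nonempty ↔ ∃ b ∈ B, m ∣ b := by
      constructor
      · rintro ⟨b, hb⟩
        unfold SN at hb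
        rw [Finset.mem_inter, Finset.mem_filter] at hb
        exact ⟨b, hb.1, hb.2.2⟩
      · rintro ⟨b, hb, hpb⟩
        refine ⟨b, ?_⟩
        unfold SN
        rw [Finset.mem_inter, Finset.mem_filter]
        exact ⟨hb, hB hb, hpb⟩
    congr 1
    by_cases h : ∃ b ∈ B, m ∣ b
    · rw [if_pos h, if_pos (e.2 h)]
    · rw [if_neg h, if_neg (fun h' => h (e.1 h'))]
  rw [h1, avg_sum]
  unfold E
  refine Finset.sum_congr rfl fun m _ => ?_
  rw [avg_mul_left, e0, avg_ind]
  ring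

/-- the mean square distance of `log lcm B` from any number -/
lemma avg_sq (N : ℕ) (a : ℝ) : avg (Icc 1 N) (fun B => (lg B - a) ^ 2) =
    avg (Icc 1 N) (fun B => (lg B - E N) ^ 2) + (E N - a) ^ 2 := by
  have h1 : avg (Icc 1 N) (fun B => (lg B - a) ^ 2) = avg (Icc 1 N) (fun B => ((lg B - E N) ^ 2 +
      (2 * (E N - a)) * lg B) + ((E N - a) ^ 2 - 2 * (E N - a) * E N)) := by
    refine avg_congr fun B _ => ?_
    ring
  rw [h1, avg_add, avg_add, avg_mul_left, avg_const]
  change _ + 2 * (E N - a) * avg (Icc 1 N) lg + _ = _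
  rw [avg_lg]
  ring

/-- the variance -/
noncomputable def Var (N : ℕ) : ℝ := avg (Icc 1 N) (fun B => (lg B - E N) ^ 2)

lemma Var_nonneg (N : ℕ) : 0 ≤ Var N := avg_nonneg fun _ _ => sq_nonneg _

lemma Var_bounds {N : ℕ} {r : ℝ} (hr : ∑ m ∈ Ioc 0 N \ PN N, vonMangoldt m ≤ r) :
    V N / 2 - r ^ 2 ≤ Var N ∧ Var N ≤ 2 * V N + 2 * r ^ 2 := by
  have hd : ∀ B ⊆ Icc 1 N, |lg B - E N - XB N B| ≤ r := fun B hB => (decomp hB).trans hr
  have hsq : ∀ B ⊆ Icc 1 N, (lg B - E N - XB N B) ^ 2 ≤ r ^ 2 := fun B hB => by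
    rw [← sq_abs (lg B - E N - XB N B)]
    exact pow_le_pow_left₀ (abs_nonneg _) (hd B hB) 2
  have e0 : Icc 1 N = Ioc 0 N := rfl
  constructor
  · have h1 : avg (Icc 1 N) (fun B => 1 / 2 * XB N B ^ 2 + -r ^ 2) ≤ Var N := by
      unfold Var
      refine avg_mono fun B hB => ?_
      nlinarith [hsq B hB, sq_nonneg (lg B - E N - XB N B + (lg B - E N))]
    rw [avg_add, avg_mul_left, avg_const, e0, avg_XB_sq] at h1
    linarith
  · have h1 : Var N ≤ avg (Icc 1 N) (fun B => 2 * XB N B ^ 2 + 2 * r ^ 2) := by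
      unfold Var
      refine avg_mono fun B hB => ?_
      nlinarith [hsq B hB, sq_nonneg (lg B - E N - 2 * XB N B)]
    rw [avg_add, avg_mul_left, avg_const, e0, avg_XB_sq] at h1
    linarith

/-- the variance has the order `N log N` -/
theorem Var_order : ∃ c C : ℝ, 0 < c ∧ 0 < C ∧ ∀ᶠ N : ℕ in atTop,
    c * (N * Real.log N) ≤ Var N ∧ Var N ≤ C * (N * Real.log N) := by
  obtain ⟨K, hK, hr⟩ := rem_sqrt
  refine ⟨1 / 1024, 2 * Real.log 4 + 2, by norm_num, ?_, ?_⟩
  · have := Real.log_pos (by norm_num : (1:ℝ) < 4)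
    linarith
  have hlog : ∀ᶠ N : ℕ in atTop, 1024 * K ^ 2 ≤ Real.log N :=
    (Real.tendsto_log_atTop.comp tendsto_natCast_atTop_atTop).eventually_ge_atTop _
  filter_upwards [V_ge, hlog, eventually_ge_atTop 1] with N h1 h2 h3
  obtain ⟨h4, h5⟩ := Var_bounds (hr N h3)
  have h6 := V_le N
  have hN0 : (0:ℝ) ≤ N := Nat.cast_nonneg N
  rw [mul_pow, Real.sq_sqrt hN0] at h4 h5
  have h7 := mul_le_mul_of_nonneg_left h2 hN0
  have h8 : 0 ≤ (N:ℝ) * Real.log N := mul_nonneg hN0 (Real.log_natCast_nonneg N)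
  constructor
  · nlinarith
  · nlinarith

end Pool.Agent.Helper54.Lcm
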